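import Pool.Agent.Q37.LV.Cor

set_option autoImplicit false

/-!
# The exceptions `l(n) > n` and the law of `l(n)` in the residue classes to all moduli

The exceptions `l(n) > n` to the conjecture of Beltraminelli, Merlini and Rusconi, the integers with infinite
`l(n)`, and the events of the normal law of `l(n)` have the expected frequencies in residue classes: on average
over all moduli `q` up to `√N exp ((log N) ^ (1 / 2 - δ))`, with the worst residue class for every modulus, and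
in the mean square over all residue classes to all moduli up to a small multiple of `N`. So if one exception
has `l(n) = ∞`, then for almost all moduli `q` every residue class contains its share of exceptions below
`q ^ 2 exp (- (log q) ^ (1 / 2 - δ))`.
-/

namespace Pool.Agent.Results.MP_e43fce_nt.AllResidueClasses

open Filter Topology

/-- the Collatz function -/
def C (n : ℕ) : ℕ := if n % 2 = 0 then n / 2 else 3 * n + 1

/-- `l` is the total stopping time `l(n)` of `n` -/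
def IsTotalStoppingTime (n l : ℕ) : Prop := C^[l] n = 1 ∧ ∀ j < l, C^[j] n ≠ 1

/-- `l(n) > n`, including `l(n) = ∞` -/
def Exception (n : ℕ) : Prop := ∀ l : ℕ, IsTotalStoppingTime n l → n < l

/-- the number of odd terms among `n, C n, ..., C^(k-1) n` -/
def odds (k n : ℕ) : ℕ := ((Finset.range k).filter fun i => C^[i] n % 2 = 1).card

/-- `3 / log (4/3) * log n + x * log 6 * √(2 log n / (log (4/3))^3)` -/
noncomputable def bound (x : ℝ) (n : ℕ) : ℝ :=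
  3 / Real.log (4 / 3) * Real.log n
    + x * (Real.log 6 * Real.sqrt (2 * Real.log n / Real.log (4 / 3) ^ 3))

/-- The distribution function of the standard normal law. -/
noncomputable def Phi (x : ℝ) : ℝ :=
  ProbabilityTheory.cdf (ProbabilityTheory.gaussianReal 0 1) x

/-- `l(n)` is finite and at most `bound x n`, `l(n) ≡ a` and the number of odd terms before reaching `1` is
`≡ b` modulo `m` -/
def Level (m : ℕ) (a b : ℤ) (x : ℝ) (n : ℕ) : Prop :=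
  ∃ l : ℕ, (l : ℝ) ≤ bound x n ∧ IsTotalStoppingTime n l ∧ (l : ℤ) ≡ a [ZMOD m] ∧ (odds l n : ℤ) ≡ b [ZMOD m]

/-- the number of the `1 ≤ n ≤ N`, `n ≡ a` modulo `q`, with the property `P` -/
noncomputable def count (P : ℕ → Prop) (N q : ℕ) (a : ℤ) : ℝ :=
  ({n : ℕ | 1 ≤ n ∧ n ≤ N ∧ (n : ℤ) ≡ a [ZMOD q] ∧ P n}.ncard : ℝ)

/-- `√N exp ((log N) ^ (1/2 - δ))` -/
noncomputable def level (δ : ℝ) (N : ℕ) : ℝ := √ (N : ℝ) * Real.exp (Real.log N ^ (1 / 2 - δ))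

/-- `⌊Q ^ 2 exp (- (log Q) ^ (1/2 - δ))⌋` -/
noncomputable def length (δ : ℝ) (Q : ℕ) : ℕ := ⌊(Q : ℝ) ^ 2 * Real.exp (-(Real.log Q ^ (1 / 2 - δ)))⌋₊

/-- The property `P` has the frequency `l` in the residue classes: on average over all moduli beyond the square
root, with any class for every modulus, and in the mean square over all residue classes to all moduli up to
a small multiple of the length. -/
def InClasses (P : ℕ → Prop) (l : ℝ) : Prop :=
  (∀ δ : ℝ, 0 < δ → ∀ ε : ℝ, 0 < ε → ∃ N₀ : ℕ, ∀ N : ℕ, N₀ ≤ N → ∀ Q : ℕ, 1 ≤ Q → (Q : ℝ) ≤ level δ N →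
    ∀ a : ℕ → ℤ, ∑ q ∈ Finset.Ico Q (2 * Q), |count P N q (a q) - l * N / q| ≤ ε * N) ∧
  (∀ ε : ℝ, 0 < ε → ∃ η : ℝ, 0 < η ∧ ∃ N₀ : ℕ, ∀ N : ℕ, N₀ ≤ N → ∀ Q : ℕ, 1 ≤ Q → (Q : ℝ) ≤ η * N →
    ∑ q ∈ Finset.Ico Q (2 * Q), ∑ a ∈ Finset.range q, (count P N q ((a : ℕ) : ℤ) - l * N / q) ^ 2 ≤ ε * N ^ 2)

/-! ### proofs -/

open Pool.Agent.Q37.LV Pool.Agent.Q37.BV

theorem inClasses_iff (P : ℕ → Prop) (l : ℝ) : InClasses P l ↔ RV P l := Iff.rfl

theorem hit (n l : ℕ) (hn : 1 ≤ n) : IsTotalStoppingTime n l ↔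
    ∃ k, Pool.Agent.H499R2.HL.H k n ∧ l = k + Pool.Agent.H499R2.LT.odn k n :=
  Pool.Agent.Y964.LW.hitC hn

theorem fin_iff (n : ℕ) (hn : 1 ≤ n) : (∃ l, IsTotalStoppingTime n l) ↔ ∃ k, Pool.Agent.H499R2.HL.H k n := by
  constructor
  · rintro ⟨l, hl⟩
    obtain ⟨k, hk, _⟩ := (hit n l hn).1 hl
    exact ⟨k, hk⟩
  · rintro ⟨k, hk⟩
    exact ⟨_, (hit n _ hn).2 ⟨k, hk, rfl⟩⟩

/-- equivalence for `n ≥ 2` suffices -/
theorem RV_congr2 {P Q : ℕ → Prop} {l : ℝ} (h : ∀ n, 2 ≤ n → (P n ↔ Q n)) (hP : RV P l) : RV Q l :=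
  RV_squeeze fun ζ hζ => ⟨P, P, l, l, 2, fun n hn => (h n hn).1, fun n hn => (h n hn).2, hP, hP, by linarith, by linarith,
    by linarith, by linarith⟩

/-- **The theorem.** -/
theorem result : ∃ δ : ℝ, 0 < δ ∧ δ ≤ 1 ∧
    (δ = 1 ↔ ∀ n : ℕ, 1 ≤ n → ∃ l, IsTotalStoppingTime n l) ∧
    -- (1) the exceptions, the infinite and the finite total stopping times
    InClasses Exception (1 - δ) ∧
    InClasses (fun n => ¬ ∃ l, IsTotalStoppingTime n l) (1 - δ) ∧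
    InClasses (fun n => ∃ l, IsTotalStoppingTime n l) δ ∧
    -- (2) the law of large numbers
    (∀ η : ℝ, 0 < η → InClasses (fun n => ∃ l : ℕ, IsTotalStoppingTime n l ∧
      |(l : ℝ) / Real.log n - 3 / Real.log (4 / 3)| ≤ η) δ) ∧
    -- (3) the normal law, jointly with the residue classes of the times
    (∀ (m : ℕ) (a b : ℤ) (x : ℝ), 1 ≤ m → InClasses (Level m a b x) (δ * Phi x / m ^ 2)) ∧
    -- (4) the exceptions in all residue classes to almost all moduli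
    (∀ θ ε : ℝ, 0 < θ → θ < 1 / 2 → 0 < ε → ∃ Q₀ : ℕ, ∀ Q : ℕ, Q₀ ≤ Q →
      ({q : ℕ | Q ≤ q ∧ q < 2 * Q ∧ ∃ a : ℤ, ε * (length θ Q / q) <
        |count Exception (length θ Q) q a - (1 - δ) * length θ Q / q|}.ncard : ℝ) ≤ ε * Q) ∧
    -- (5) the exceptions in almost all residue classes, moduli proportional to the length
    (∀ ε : ℝ, 0 < ε → ∃ K₀ Q₀ : ℕ, ∀ K Q : ℕ, K₀ ≤ K → Q₀ ≤ Q →
      ({p : ℕ × ℕ | Q ≤ p.1 ∧ p.1 < 2 * Q ∧ p.2 < p.1 ∧ ε * (((K * Q : ℕ) : ℝ) / p.1) <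
        |count Exception (K * Q) p.1 ((p.2 : ℕ) : ℤ) - (1 - δ) * ((K * Q : ℕ) : ℝ) / p.1|}.ncard : ℝ) ≤ ε * Q ^ 2) ∧
    -- (6) a criterion
    (∀ θ c : ℝ, 0 < θ → θ < 1 / 2 → 0 < c →
      (∀ Q₀ : ℕ, ∃ Q : ℕ, Q₀ ≤ Q ∧ c * Q ≤ ({q : ℕ | Q ≤ q ∧ q < 2 * Q ∧ ∃ a : ℤ, ∀ n : ℕ, 1 ≤ n →
        n ≤ length θ Q → (n : ℤ) ≡ a [ZMOD q] → ¬ Exception n}.ncard : ℝ)) →
      ∀ n : ℕ, 1 ≤ n → ∃ l, IsTotalStoppingTime n l) := by
  obtain ⟨δ, h0, h1, h2, h3, h4, h5⟩ := rv_laws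
  have hnu : 0 < Real.log (4 / 3) := Real.log_pos (by norm_num)
  have hl6 : 0 < Real.log 6 := Real.log_pos (by norm_num)
  have hrr := Pool.Agent.H499R2.HL.rr_pos
  have hfull : δ = 1 ↔ ∀ n : ℕ, 1 ≤ n → ∃ l, IsTotalStoppingTime n l := by
    rw [h2]
    refine forall₂_congr fun n hn => ?_
    rw [fin_iff n hn]
    exact Pool.Agent.Y964.LW.hit_iff n
  have hH : RV (fun n => ∃ l, IsTotalStoppingTime n l) δ := RV_congr (fun n hn => (fin_iff n hn).symm) h4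
  have hll : ∀ η : ℝ, 0 < η → RV (fun n => ∃ l : ℕ, IsTotalStoppingTime n l ∧
      |(l : ℝ) / Real.log n - 3 / Real.log (4 / 3)| ≤ η) δ := by
    intro η hη
    have h6 := rv_lln (f := fun k n => ((k + Pool.Agent.H499R2.LT.odn k n : ℕ) : ℝ))
      (α := 3 / Real.log (4 / 3))
      (σ := Real.log 6 * Pool.Agent.H499R2.HL.rr) (δ := δ) (η := η) (by positivity) h0.le h1 hη (fun x => by
        have h7 := ((h5 1 0 0 le_rfl).2.2 x).2.1
        have e1 : δ / ((1 : ℕ) : ℝ) ^ 2 * Pool.Agent.H499R2.ND.Phi x = δ * Pool.Agent.H499R2.ND.Phi x := by simp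
        rw [e1] at h7
        refine RV_congr (fun n _ => exists_congr fun k => and_congr_right fun _ => ?_) h7
        rw [← Pool.Agent.Y964.LW.bc_thr]
        simp [Int.modEq_one]) h4
    refine RV_congr2 (fun n hn => ?_) h6
    have hL : 0 < Real.log n := Real.log_pos (by exact_mod_cast (by omega : 1 < n))
    have e : ∀ t : ℕ, |(t : ℝ) - 3 / Real.log (4 / 3) * Real.log n| ≤ η * Real.log n ↔
        |(t : ℝ) / Real.log n - 3 / Real.log (4 / 3)| ≤ η := by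
      intro t
      have e1 : (t : ℝ) - 3 / Real.log (4 / 3) * Real.log n =
          ((t : ℝ) / Real.log n - 3 / Real.log (4 / 3)) * Real.log n := by field_simp
      rw [e1, abs_mul, abs_of_pos hL]
      exact mul_le_mul_iff_left₀ hL
    constructor
    · rintro ⟨k, hk, h8⟩
      exact ⟨_, (hit n _ (by omega)).2 ⟨k, hk, rfl⟩, (e _).1 h8⟩
    · rintro ⟨l, hl, h8⟩
      obtain ⟨k, hk, rfl⟩ := (hit n l (by omega)).1 hl
      exact ⟨k, hk, (e _).2 h8⟩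
  have hexc : RV Exception (1 - δ) := by
    have tl : Tendsto (fun n : ℕ => Real.log n / n) atTop (𝓝 0) := by
      have := Real.isLittleO_log_id_atTop.tendsto_div_nhds_zero
      exact this.comp tendsto_natCast_atTop_atTop
    obtain ⟨n0, hn0⟩ := eventually_atTop.1 ((tl.const_mul (3 / Real.log (4 / 3) + 1)).eventually_lt_const
      (show (3 / Real.log (4 / 3) + 1) * 0 < 1 by rw [mul_zero]; exact one_pos))
    refine RV_squeeze fun ζ hζ =>
      ⟨fun n => ¬ ∃ l, IsTotalStoppingTime n l, fun n => ¬ ∃ l : ℕ, IsTotalStoppingTime n l ∧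
        |(l : ℝ) / Real.log n - 3 / Real.log (4 / 3)| ≤ 1, 1 - δ, 1 - δ, n0 + 2, fun n _ h => ?_,
        fun n hn h => ?_, RV_not hH (fun _ => Iff.rfl),
        RV_not (hll 1 one_pos) (fun _ => Iff.rfl), by linarith, by linarith, by linarith, by linarith⟩
    · intro l hl
      exact absurd ⟨l, hl⟩ h
    · rintro ⟨l, hl, h8⟩
      have h9 := h l hl
      have h10 := hn0 n (by omega)
      have hnR : (0 : ℝ) < n := by exact_mod_cast (by omega : 0 < n)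
      have hL : 0 < Real.log n := Real.log_pos (by exact_mod_cast (by omega : 1 < n))
      have h11 := (abs_le.1 h8).2
      have h12 : (l : ℝ) / Real.log n ≤ 3 / Real.log (4 / 3) + 1 := by linarith
      rw [div_le_iff₀ hL] at h12
      have h13 : (n : ℝ) < l := by exact_mod_cast h9
      rw [← mul_div_assoc, div_lt_one hnR] at h10
      linarith
  refine ⟨δ, h0, h1, hfull, hexc, RV_not hH (fun _ => Iff.rfl), hH, hll, fun m a b x hm => ?_, ?_, ?_, ?_⟩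
  · have h6 := ((h5 m a b hm).2.2 x).2.1
    have e : δ / (m : ℝ) ^ 2 * Pool.Agent.H499R2.ND.Phi x = δ * Phi x / m ^ 2 := by
      unfold Phi
      rw [← Pool.Agent.H499R2.ND.phi_cdf]
      ring
    rw [e] at h6
    refine (inClasses_iff _ _).2 (RV_congr (fun n hn => ?_) h6)
    constructor
    · rintro ⟨k, hk, g1, g2, g3⟩
      refine ⟨_, g1, (hit n _ hn).2 ⟨k, hk, rfl⟩, g2, ?_⟩
      have : odds (k + Pool.Agent.H499R2.LT.odn k n) n = Pool.Agent.H499R2.LT.odn k n :=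
        Pool.Agent.Y964.LW.ocn_run k n
      rw [this]
      exact g3
    · rintro ⟨l, g1, hl, g2, g3⟩
      obtain ⟨k, hk, rfl⟩ := (hit n l hn).1 hl
      have : odds (k + Pool.Agent.H499R2.LT.odn k n) n = Pool.Agent.H499R2.LT.odn k n :=
        Pool.Agent.Y964.LW.ocn_run k n
      rw [this] at g3
      exact ⟨k, hk, g1, g2, g3⟩
  · intro θ ε hθ hθ2 hε
    exact mod_all hexc hθ hθ2 hε
  · intro ε hε
    exact pairs_all hexc hε
  · intro θ c hθ hθ2 hc hQ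
    by_contra hcon
    have hδ1 : δ < 1 := lt_of_le_of_ne h1 (fun h => hcon (hfull.1 h))
    set ε : ℝ := min (c / 2) ((1 - δ) / 2) with hε
    have hε0 : 0 < ε := lt_min (by positivity) (by linarith)
    have hε1 : ε ≤ c / 2 := min_le_left _ _
    have hε2 : ε ≤ (1 - δ) / 2 := min_le_right _ _
    obtain ⟨Q₀, h6⟩ := mod_all hexc hθ hθ2 hε0
    obtain ⟨Q₁, h7⟩ := eventually_atTop.1 (len_facts hθ hθ2)
    obtain ⟨Q, hQ1, hQ2⟩ := hQ (max Q₀ (max Q₁ 1))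
    have h8 := h6 Q ((le_max_left _ _).trans hQ1)
    obtain ⟨h9, -⟩ := h7 Q (((le_max_left _ _).trans (le_max_right _ _)).trans hQ1)
    have hQ3 : 1 ≤ Q := ((le_max_right _ _).trans (le_max_right _ _)).trans hQ1
    have hQ0 : (0 : ℝ) < Q := by exact_mod_cast hQ3
    have hX : (0 : ℝ) < (⌊len θ Q⌋₊ : ℝ) := by exact_mod_cast (by omega : 0 < ⌊len θ Q⌋₊)
    have hsub : {q : ℕ | Q ≤ q ∧ q < 2 * Q ∧ ∃ a : ℤ, ∀ n : ℕ, 1 ≤ n →
        n ≤ length θ Q → (n : ℤ) ≡ a [ZMOD q] → ¬ Exception n} ⊆ {q : ℕ | Q ≤ q ∧ q < 2 * Q ∧ ∃ a : ℤ,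
      ε * (⌊len θ Q⌋₊ / q) < |ct Exception ⌊len θ Q⌋₊ q a - (1 - δ) * ⌊len θ Q⌋₊ / q|} := by
      rintro q ⟨g1, g2, a, ha⟩
      refine ⟨g1, g2, a, ?_⟩
      have hq0 : (0 : ℝ) < q := by exact_mod_cast (by omega : 0 < q)
      have hz : ct Exception ⌊len θ Q⌋₊ q a = 0 := by
        unfold ct
        have : {n : ℕ | 1 ≤ n ∧ n ≤ ⌊len θ Q⌋₊ ∧ (n : ℤ) ≡ a [ZMOD q] ∧ Exception n} = ∅ := by
          rw [Set.eq_empty_iff_forall_notMem]
          rintro n ⟨k1, k2, k3, k4⟩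
          exact ha n k1 k2 k3 k4
        rw [this, Set.ncard_empty, Nat.cast_zero]
      have hd : 0 < 1 - δ := by linarith
      rw [hz, zero_sub, abs_neg, abs_of_nonneg (by positivity), mul_div_assoc]
      apply mul_lt_mul_of_pos_right _ (by positivity)
      linarith
    have hfin : {q : ℕ | Q ≤ q ∧ q < 2 * Q ∧ ∃ a : ℤ,
      ε * (⌊len θ Q⌋₊ / q) < |ct Exception ⌊len θ Q⌋₊ q a - (1 - δ) * ⌊len θ Q⌋₊ / q|}.Finite :=
      (Set.finite_Ico Q (2 * Q)).subset (fun q hq => Set.mem_Ico.2 ⟨hq.1, hq.2.1⟩)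
    have h10 : ({q : ℕ | Q ≤ q ∧ q < 2 * Q ∧ ∃ a : ℤ, ∀ n : ℕ, 1 ≤ n →
        n ≤ length θ Q → (n : ℤ) ≡ a [ZMOD q] → ¬ Exception n}.ncard : ℝ) ≤ ({q : ℕ | Q ≤ q ∧ q < 2 * Q ∧ ∃ a : ℤ,
      ε * (⌊len θ Q⌋₊ / q) < |ct Exception ⌊len θ Q⌋₊ q a - (1 - δ) * ⌊len θ Q⌋₊ / q|}.ncard : ℝ) := by
      exact_mod_cast Set.ncard_le_ncard hsub hfin
    have h11 := hQ2.trans (h10.trans h8)
    nlinarith

end Pool.Agent.Results.MP_e43fce_nt.AllResidueClasses
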