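import Pool.Agent.Q250.CL.Coll

set_option autoImplicit false

/-!
# The inequality `l(n) ≤ n` in arithmetical test sets

A test set is given by inequalities for arbitrary real additive functions (the number of prime factors,
`log (σ(n) / n)`, ...), and an arbitrary condition on the value of an additive function with few values at the
primes (for example the vector of the numbers of prime factors in given arbitrary sets of primes) and on the list
of the `k` largest prime factors. Nothing is assumed on the size or the regularity of these conditions, and they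
may depend on `N`. In all test sets, up to `ε N` and uniformly, the inequality `l(n) ≤ n` of the question (and
`l(n) ≤ F(n)` for every bound `F(n)` which is above `K log n`, `K > 3 / log (4/3)`) has the same frequency, as has the
normal law of `l(n)`, and the average of `l(n)`, truncated at `Λ log N`, is the same. If for one sequence of test
sets of positive proportion the exceptions `l(n) > n` have proportion `o(1)`, then `l(n)` is finite for every `n`.
-/

namespace Pool.Agent.Results.MP_e43fce_nt.ArithmeticTestSets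

open Filter Topology

/-- the Collatz function -/
def C (n : ℕ) : ℕ := if n % 2 = 0 then n / 2 else 3 * n + 1

/-- `l(n)` is finite -/
def Finite (n : ℕ) : Prop := ∃ k, C^[k] n = 1

/-- the total stopping time `l(n)` (it is `0` if no iterate equals `1`) -/
noncomputable def l (n : ℕ) : ℕ := sInf {k : ℕ | C^[k] n = 1}

/-- the number of odd terms among `n, C n, ..., C^(k-1) n` -/
def odds (k n : ℕ) : ℕ := ((Finset.range k).filter fun i => C^[i] n % 2 = 1).card

/-- the positive integers with the property `P` have the natural density `δ` -/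
def HasDensity (P : ℕ → Prop) (δ : ℝ) : Prop :=
  Tendsto (fun N : ℕ => ({n : ℕ | 1 ≤ n ∧ n ≤ N ∧ P n}.ncard : ℝ) / N) atTop (𝓝 δ)

/-- `3 / log (4/3) * log n + x * log 6 * √(2 log n / (log (4/3))^3)` -/
noncomputable def bound (x : ℝ) (n : ℕ) : ℝ :=
  3 / Real.log (4 / 3) * Real.log n
    + x * (Real.log 6 * Real.sqrt (2 * Real.log n / Real.log (4 / 3) ^ 3))

/-- The distribution function of the standard normal law. -/
noncomputable def Phi (x : ℝ) : ℝ :=
  ProbabilityTheory.cdf (ProbabilityTheory.gaussianReal 0 1) x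

/-- A multiplicative function with values in the closed unit disc. -/
def Multiplicative (g : ℕ → ℂ) : Prop :=
  (∀ n, ‖g n‖ ≤ 1) ∧ ∀ m n : ℕ, Nat.Coprime m n → g (m * n) = g m * g n

/-- An additive function with values in a commutative monoid. -/
def Additive {A : Type} [AddCommMonoid A] (f : ℕ → A) : Prop :=
  ∀ m n : ℕ, Nat.Coprime m n → f (m * n) = f m + f n

/-- `h` has at most `r` different values at the primes. -/
def FewValues {A : Type} (r : ℕ) (h : ℕ → A) : Prop :=
  ∃ V : Finset A, V.card ≤ r ∧ ∀ p : ℕ, p.Prime → h p ∈ V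

/-- The `k` largest prime factors of `n`, with multiplicity, in decreasing order (all prime factors, if `n` has
fewer than `k`). -/
def top (k n : ℕ) : List ℕ := n.primeFactorsList.reverse.take k

/-- The test sets: `f i n ∈ I i` for `d` real additive functions `f i` and intervals `I i`, and
`(h n, top k n) ∈ B` for an additive function `h` with at most `r` values at the primes and any set `B`. -/
def IsTest (d r k : ℕ) (E : Set ℕ) : Prop :=
  ∃ (f : Fin d → ℕ → ℝ) (I : Fin d → Set ℝ) (A : Type) (_ : AddCommMonoid A) (h : ℕ → A) (B : Set (A × List ℕ)),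
    (∀ i, Additive (f i)) ∧ (∀ i, (I i).OrdConnected) ∧ Additive h ∧ FewValues r h ∧
    E = {n : ℕ | (∀ i, f i n ∈ I i) ∧ (h n, top k n) ∈ B}

/-- The number of the positive integers `n ≤ N` in `E` with the property `P`. -/
noncomputable def Count (N : ℕ) (P : ℕ → Prop) (E : Set ℕ) : ℕ := {n : ℕ | 1 ≤ n ∧ n ≤ N ∧ n ∈ E ∧ P n}.ncard

open scoped Classical in
/-- The property `P` has the frequency `c` in all test sets: for all `d`, `r`, `k` and `ε > 0`, if `N` is large, then
for every test set `E` the number of the `n ≤ N` in `E` with the property `P` is `c` times the number of the `n ≤ N`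
in `E`, up to `ε N`; and the sum of `(1_P(n) - c) g(n)` over the `n ≤ N` in `E` is at most `ε N` in absolute value for
all multiplicative `g` with values in the unit disc. -/
def HasFrequency (P : ℕ → Prop) (c : ℝ) : Prop := ∀ (d r k : ℕ) (ε : ℝ), 0 < ε → ∃ N₀ : ℕ, ∀ N : ℕ, N₀ ≤ N →
  ∀ E : Set ℕ, IsTest d r k E →
    |(Count N P E : ℝ) - c * Count N (fun _ => True) E| ≤ ε * N ∧
    ∀ g : ℕ → ℂ, Multiplicative g →
      ‖∑ n ∈ Finset.Icc 1 N, if n ∈ E then ((if P n then (1 : ℂ) else 0) - c) * g n else 0‖ ≤ ε * N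

open scoped Classical in
/-- The sum of the `l(n)` over the `n ≤ N` in `E` with finite `l(n) ≤ t`. -/
noncomputable def SumUpTo (N : ℕ) (t : ℝ) (E : Set ℕ) : ℝ :=
  ∑ n ∈ Finset.Icc 1 N, if n ∈ E ∧ Finite n ∧ (l n : ℝ) ≤ t then (l n : ℝ) else 0

/-! ### proofs -/

open Pool.Agent.Q250.CL Finset
open Pool.Agent.H499R2.ND (Dn cnt)

theorem freq_of {P : ℕ → Prop} {c : ℝ} (h : Ind P c) : HasFrequency P c := by
  intro d r k ε hε
  obtain ⟨N0, H⟩ := h d r k ε hε
  exact ⟨N0, fun N hN E hE => ⟨Pool.Agent.Q250.CL.count_of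
    (H N hN E hE (fun _ => 1) ⟨fun _ => by simp, fun _ _ _ => by simp⟩), fun g hg => H N hN E hE g hg⟩⟩

theorem l_spec {n : ℕ} (h : Finite n) : C^[l n] n = 1 ∧ ∀ j < l n, C^[j] n ≠ 1 := fst_spec h

theorem l_eq {n t : ℕ} (h : C^[t] n = 1) (h' : ∀ j < t, C^[j] n ≠ 1) : l n = t := fst_eq h h'

/-- THE INEQUALITY `l(n) ≤ n` IN TEST SETS. There is `0 < δ ≤ 1`, the natural density of the positive integers with
finite `l(n)`, equal to `1` if and only if `l(n)` is always finite, such that: (1) the inequality `l(n) ≤ n` (with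
`l(n)` finite) has the frequency `δ` in all test sets; the same is true for `l(n) ≤ F(n)` if `F(n) ≥ K log n` for all
large `n` and some `K > 3 / log (4/3)`, and the frequency is `0` if `F(n) ≤ K log n` for all large `n` and some
`K < 3 / log (4/3)`. (2) For all `m ≥ 1`, `a`, `b` and real `x` the `n` with finite `l(n) ≤ bound x n`, `l(n) ≡ a` and
number of odd terms before reaching `1` `≡ b` modulo `m` have the frequency `δ Phi x / m ^ 2` in all test sets. (3) For
every `Λ > 3 / log (4/3)` the sum of the finite `l(n) ≤ Λ log N` over the `n ≤ N` in `E` is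
`δ 3 / log (4/3) log N` times the number of the `n ≤ N` in `E`, up to `ε N log N`, uniformly in the test sets `E`. (4) If
for some `κ > 0` and infinitely many `N` at least `κ N` of the `n ≤ N` are in the test set `E N` and all but `o(N)` of
these satisfy `l(n) ≤ n`, or only `l(n) < ∞`, then `l(n)` is finite for every positive integer `n`. -/
theorem result : ∃ δ : ℝ, 0 < δ ∧ δ ≤ 1 ∧ (δ = 1 ↔ ∀ n : ℕ, 1 ≤ n → Finite n) ∧ HasDensity Finite δ ∧
    HasFrequency (fun n => Finite n ∧ l n ≤ n) δ ∧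
    (∀ F : ℕ → ℝ, (∃ K : ℝ, 3 / Real.log (4 / 3) < K ∧ ∀ᶠ n : ℕ in atTop, K * Real.log n ≤ F n) →
      HasFrequency (fun n => Finite n ∧ (l n : ℝ) ≤ F n) δ) ∧
    (∀ F : ℕ → ℝ, (∃ K : ℝ, K < 3 / Real.log (4 / 3) ∧ ∀ᶠ n : ℕ in atTop, F n ≤ K * Real.log n) →
      HasFrequency (fun n => Finite n ∧ (l n : ℝ) ≤ F n) 0) ∧
    (∀ (m : ℕ) (a b : ℤ) (x : ℝ), 1 ≤ m → HasFrequency (fun n => Finite n ∧ (l n : ℝ) ≤ bound x n ∧
      (l n : ℤ) ≡ a [ZMOD m] ∧ (odds (l n) n : ℤ) ≡ b [ZMOD m]) (δ * Phi x / m ^ 2)) ∧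
    (∀ Λ : ℝ, 3 / Real.log (4 / 3) < Λ → ∀ (d r k : ℕ) (ε : ℝ), 0 < ε → ∃ N₀ : ℕ, ∀ N : ℕ, N₀ ≤ N →
      ∀ E : Set ℕ, IsTest d r k E →
        |SumUpTo N (Λ * Real.log N) E
          - δ * (3 / Real.log (4 / 3)) * Real.log N * Count N (fun _ => True) E| ≤ ε * (N * Real.log N)) ∧
    ∀ (d r k : ℕ) (E : ℕ → Set ℕ), (∀ N, IsTest d r k (E N)) → ∀ (κ : ℝ) (ψ : ℕ → ℝ), 0 < κ →
      Tendsto ψ atTop (𝓝 0) →
      ((∃ᶠ N : ℕ in atTop, κ * N ≤ Count N (fun _ => True) (E N) ∧
        (Count N (fun n => ¬ (Finite n ∧ l n ≤ n)) (E N) : ℝ) ≤ ψ N * N) ∨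
      (∃ᶠ N : ℕ in atTop, κ * N ≤ Count N (fun _ => True) (E N) ∧
        (Count N (fun n => ¬ Finite n) (E N) : ℝ) ≤ ψ N * N)) →
      ∀ n : ℕ, 1 ≤ n → Finite n := by
  classical
  obtain ⟨δ, h0, h1, h2, h3, h4, h5⟩ := Pool.Agent.Q49.EX.rx_laws
  obtain ⟨δ', _, _, _, h3', h4'⟩ := lln_C
  have hBC : ∀ n : ℕ, (∃ k : ℕ, Pool.Agent.H499R2.ND.Tn^[k] n = 1) ↔ Finite n := reach_C
  have e0 : δ' = δ := by
    refine tendsto_nhds_unique (Pool.Agent.H499R2.LT.Dn_iff (fun n _ => ?_) h3') h3
    exact (reach_C n).symm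
  have hD : Dn Finite δ := Pool.Agent.H499R2.LT.Dn_iff (fun n _ => hBC n) h3
  have hI : Ind Finite δ := ind_of (Pool.Agent.Q49.AF.RX_congr
    (fun n _ => (Pool.Agent.Y964.LW.hit_iff n).symm.trans (hBC n)) h4)
  have hL : 0 < Real.log (4 / 3) := Real.log_pos (by norm_num)
  set κ₀ := 3 / Real.log (4 / 3) with hκ₀
  have hκ0 : 0 < κ₀ := by positivity
  have hlln : ∀ η : ℝ, 0 < η → Tendsto (fun N : ℕ =>
      cnt (fun n => Finite n ∧ η * Real.log n < |(l n : ℝ) - κ₀ * Real.log n|) N / N) atTop (𝓝 0) := h4'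
  have hA1 : Ind (fun n => Finite n ∧ (l n : ℝ) ≤ (n : ℝ)) δ :=
    ind_near hI (dz_above hlln (F := fun n => n) ⟨κ₀ + 1, by linarith, log_small _⟩)
  have hA2 : Ind (fun n => Finite n ∧ l n ≤ n) δ := by
    have e : (fun n => Finite n ∧ (l n : ℝ) ≤ (n : ℝ)) = fun n => Finite n ∧ l n ≤ n := by
      funext n; simp only [Nat.cast_le]
    rwa [e] at hA1
  have hone : δ = 1 → ∀ n : ℕ, 1 ≤ n → Finite n := fun h n hn => (hBC n).1 (h2.1 h n hn)
  refine ⟨δ, h0, h1, ⟨hone, fun h => h2.2 fun n hn => (hBC n).2 (h n hn)⟩, hD, freq_of hA2,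
    fun F hF => freq_of (ind_near hI (dz_above hlln hF)),
    fun F hF => freq_of (ind_near ind_false (dz_below hlln hF)), fun m a b x hm => ?_,
    fun Λ hΛ d r k ε hε => ?_, ?_⟩
  · have h6 := ((h5 m a b hm).2.2 x).2.1
    have e : δ / (m : ℝ) ^ 2 * Pool.Agent.H499R2.ND.Phi x = δ * Phi x / m ^ 2 := by
      rw [Pool.Agent.H499R2.ND.phi_cdf]; unfold Phi; ring
    rw [e] at h6
    refine freq_of (ind_of (Pool.Agent.Q49.AF.RX_congr (fun n hn => ?_) h6))
    constructor
    · rintro ⟨k, hk, g1, g3, g4⟩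
      obtain ⟨g5, g6⟩ := (Pool.Agent.Y964.LW.hitC hn).2 ⟨k, hk, rfl⟩
      have g7 : l n = k + Pool.Agent.H499R2.LT.odn k n := l_eq g5 g6
      refine ⟨⟨_, g5⟩, ?_, ?_, ?_⟩
      · rw [g7]; exact g1
      · rw [g7]; exact g3
      · rw [g7]
        have g8 := Pool.Agent.Y964.LW.ocn_run k n
        have g9 : odds (k + Pool.Agent.H499R2.LT.odn k n) n = Pool.Agent.H499R2.LT.odn k n := g8
        rw [g9]; exact g4
    · rintro ⟨g1, g2, g3, g4⟩
      obtain ⟨k, hk, g5⟩ := (Pool.Agent.Y964.LW.hitC hn).1 (l_spec g1)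
      refine ⟨k, hk, ?_, ?_, ?_⟩
      · rw [← g5]; exact g2
      · rw [← g5]; exact g3
      · have g8 := Pool.Agent.Y964.LW.ocn_run k n
        have g9 : odds (k + Pool.Agent.H499R2.LT.odn k n) n = Pool.Agent.H499R2.LT.odn k n := g8
        rw [g5, g9] at g4
        exact g4
  · obtain ⟨N0, H⟩ := trunc hκ0 (fun n => Nat.cast_nonneg (l n)) hI hlln hΛ d r k hε
    exact ⟨N0, fun N hN E hE => H N hN E hE⟩
  · intro d r k E hE κ ψ hκ hψ h
    rcases h with h | h
    · exact hone (suff h1 hA2 hE hκ hψ h)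
    · exact hone (suff h1 hI hE hκ hψ h)

end Pool.Agent.Results.MP_e43fce_nt.ArithmeticTestSets
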