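import Pool.Agent.Q250.CL.Coll
import Pool.Agent.Q250.CL.Mul
import Pool.Agent.Q250.CL.Pt

set_option autoImplicit false

/-!
# Ergodic averages along the integers with `l(n) ≤ n`

Multiple ergodic averages of bounded functions under commuting invertible measure preserving transformations, taken
along the integers `n` for which the inequality `l(n) ≤ n` of the question is true, have the same limit in `L²` as those
along all integers, multiplied by the density `δ > 0` of the integers with finite `l`, uniformly in the system and the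
functions; the ordinary ergodic averages of square integrable functions along these integers converge almost
everywhere. The same is true with `n` replaced by any bound `F(n) ≥ K log n`, `K > 3 / log (4/3)`. Return times are
sufficient: if the inequality `l(n) ≤ n` is true for almost all return times of one set of positive measure under one
measure preserving transformation, or for almost all visits of a typical orbit to one set of positive measure, then
`l(n)` is finite for every `n`.

Method: small Gowers norms of the set of the integers with finite `l` and a generalised von Neumann theorem for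
commuting transformations (`Pool/Agent/Q49/ME`), coalescence of trajectories over short distances
(`Pool/Agent/Q49/PE`), and the law of large numbers for `l`.
-/

namespace Pool.Agent.Results.MP_e43fce_nt.ErgodicAverages

open Filter Topology MeasureTheory

/-- the Collatz function -/
def C (n : ℕ) : ℕ := if n % 2 = 0 then n / 2 else 3 * n + 1

/-- `l(n)` is finite -/
def Finite (n : ℕ) : Prop := ∃ k, C^[k] n = 1

/-- the total stopping time `l(n)` (it is `0` if no iterate equals `1`) -/
noncomputable def l (n : ℕ) : ℕ := sInf {k : ℕ | C^[k] n = 1}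

/-- `l(n)` is finite and at most `F(n)` -/
def AtMost (F : ℕ → ℝ) (n : ℕ) : Prop := Finite n ∧ (l n : ℝ) ≤ F n

/-- `l(n)` is finite and `l(n) ≤ n`: the inequality of the question is true for `n` -/
def Good (n : ℕ) : Prop := Finite n ∧ l n ≤ n

/-- the positive integers with the property `P` have the natural density `δ` -/
def HasDensity (P : ℕ → Prop) (δ : ℝ) : Prop :=
  Tendsto (fun N : ℕ => ({n : ℕ | 1 ≤ n ∧ n ≤ N ∧ P n}.ncard : ℝ) / N) atTop (𝓝 δ)

/-- `F(n) ≥ K log n` for all large `n` and some `K > 3 / Real.log (4 / 3)` -/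
def Above (F : ℕ → ℝ) : Prop := ∃ K : ℝ, 3 / Real.log (4 / 3) < K ∧ ∀ᶠ n : ℕ in atTop, K * Real.log n ≤ F n

/-- `k` commuting invertible measure preserving transformations of a probability space `X` -/
structure System (k : ℕ) (X : Type) [MeasurableSpace X] where
  μ : Measure X
  prob : IsProbabilityMeasure μ
  T : Fin k → X ≃ᵐ X
  mp : ∀ i, MeasurePreserving (T i) μ μ
  comm : ∀ i j x, T i (T j x) = T j (T i x)

/-- the product `f 1 (T 1 ^ n x) ⋯ f k (T k ^ n x)` -/
noncomputable def System.P {k : ℕ} {X : Type} [MeasurableSpace X] (Y : System k X) (f : Fin k → X → ℂ) (n : ℕ)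
    (x : X) : ℂ := ∏ i, f i ((Y.T i)^[n] x)

/-- measurable functions with values in the unit disc -/
def Bounded {k : ℕ} {X : Type} [MeasurableSpace X] (f : Fin k → X → ℂ) : Prop :=
  ∀ i, Measurable (f i) ∧ ∀ x, ‖f i x‖ ≤ 1

/-- the measure of `A₀ ∩ T 1 ^ (-n) A 1 ∩ ... ∩ T k ^ (-n) A k` -/
noncomputable def System.ret {k : ℕ} {X : Type} [MeasurableSpace X] (Y : System k X) (A₀ : Set X) (A : Fin k → Set X)
    (n : ℕ) : ℝ := Y.μ.real (A₀ ∩ {x | ∀ i, (Y.T i)^[n] x ∈ A i})

open scoped Classical in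
/-- The property `Q` has the frequency `c` in multiple ergodic averages. (1) For all `k` and `ε > 0`, if `N` is large,
then for every system `Y` of `k` commuting invertible measure preserving transformations and all measurable
`f 1, ..., f k` with values in the unit disc, the mean over `n ≤ N` of `(1_Q(n) - c) f 1 (T 1 ^ n x) ⋯ f k (T k ^ n x)` has
a norm at most `ε` in `L²`; and the sum over `n ≤ N` of `1_Q(n) - c` times the measure of
`A₀ ∩ T 1 ^ (-n) A 1 ∩ ... ∩ T k ^ (-n) A k` is at most `ε N` in absolute value. (2) If the multiple ergodic averages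
converge in `L²` (they do by a theorem of Tao) to `L`, then those along `Q` converge to `c L` in `L²`. -/
def HasFrequency (Q : ℕ → Prop) (c : ℝ) : Prop :=
  (∀ (k : ℕ) (ε : ℝ), 0 < ε → ∃ N₀ : ℕ, ∀ N : ℕ, N₀ ≤ N → ∀ (X : Type) [MeasurableSpace X] (Y : System k X),
    (∀ f : Fin k → X → ℂ, Bounded f →
      ∫ x, ‖(∑ n ∈ Finset.Icc 1 N, (((if Q n then (1 : ℝ) else 0) - c : ℝ) : ℂ) * Y.P f n x) / N‖ ^ 2 ∂Y.μ ≤ ε ^ 2) ∧
    ∀ (A₀ : Set X) (A : Fin k → Set X), MeasurableSet A₀ → (∀ i, MeasurableSet (A i)) →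
      |∑ n ∈ Finset.Icc 1 N, ((if Q n then (1 : ℝ) else 0) - c) * Y.ret A₀ A n| ≤ ε * N) ∧
  ∀ (k : ℕ) (X : Type) [MeasurableSpace X] (Y : System k X) (f : Fin k → X → ℂ), Bounded f → ∀ L : X → ℂ,
    MemLp L 2 Y.μ →
    Tendsto (fun N : ℕ => ∫ x, ‖(∑ n ∈ Finset.Icc 1 N, Y.P f n x) / N - L x‖ ^ 2 ∂Y.μ) atTop (𝓝 0) →
    Tendsto (fun N : ℕ => ∫ x, ‖(∑ n ∈ Finset.Icc 1 N, if Q n then Y.P f n x else 0) / N - c * L x‖ ^ 2 ∂Y.μ)
      atTop (𝓝 0)

open scoped Classical in
/-- The property `Q` has the frequency `c` along almost every orbit: for every measure preserving transformation `R`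
of a probability space and every square integrable function `f`, for almost every `x`, the sum of `f (R ^ n x)` over the
`n ≤ N` with the property `Q`, divided by `N`, converges to `c` times the conditional expectation of `f` with respect
to the invariant sets of `R` (which is the limit of the averages over all `n ≤ N`). -/
def AlongOrbits (Q : ℕ → Prop) (c : ℝ) : Prop :=
  ∀ (X : Type) [MeasurableSpace X] (μ : Measure X) [IsProbabilityMeasure μ] (R : X → X) (f : X → ℝ),
    MeasurePreserving R μ μ → MemLp f 2 μ → ∀ᵐ x ∂μ,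
      Tendsto (fun N : ℕ => (∑ n ∈ Finset.Icc 1 N, if Q n then f (R^[n] x) else 0) / N) atTop
        (𝓝 (c * (μ[f | MeasurableSpace.invariants R]) x))

/-! ### proofs -/

open Pool.Agent.Q250.CL
open Pool.Agent.H499R2.ND (Dn cnt Tn)

/-- translation -/
def conv {k : ℕ} {X : Type} [MeasurableSpace X] (Y : System k X) :
    Pool.Agent.Results.MP_2d22f3_nt.MultipleRecurrence.System k X := ⟨Y.μ, Y.prob, Y.T, Y.mp, Y.comm⟩

theorem freq_of {Q : ℕ → Prop} {c : ℝ} (h : ME Q c) : HasFrequency Q c := by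
  classical
  refine ⟨fun k ε hε => ?_, fun k X _ Y f hf L hL hlim => me_lim h (conv Y) hf hL hlim⟩
  obtain ⟨N1, H1⟩ := h k (ε ^ 2) (by positivity)
  obtain ⟨N2, H2⟩ := me_ret h k hε
  refine ⟨N1 + N2 + 1, fun N hN X _ Y =>
    ⟨fun f hf => ?_, fun A₀ A hA₀ hA => H2 N (by omega) X (conv Y) A₀ A hA₀ hA⟩⟩
  have h3 := H1 N (by omega) X (conv Y) f hf
  have hNp : (0 : ℝ) < N := by exact_mod_cast (by omega : 0 < N)
  have e1 : ∀ x, ‖(∑ n ∈ Finset.Icc 1 N, (((if Q n then (1 : ℝ) else 0) - c : ℝ) : ℂ) * Y.P f n x) / N‖ ^ 2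
      = 1 / (N : ℝ) ^ 2 * ‖∑ n ∈ Finset.Icc 1 N, (((if Q n then (1 : ℝ) else 0) - c : ℝ) : ℂ) * Y.P f n x‖ ^ 2 := by
    intro x
    rw [norm_div, Complex.norm_natCast, div_pow]
    ring
  simp_rw [e1]
  rw [integral_const_mul, one_div, inv_mul_le_iff₀ (by positivity)]
  rw [mul_comm]
  exact h3

open scoped Classical in
/-- ERGODIC AVERAGES AND THE INEQUALITY `l(n) ≤ n`. There is `0 < δ ≤ 1`, the natural density of the positive integers
with finite `l(n)`, equal to `1` if and only if `l(n)` is always finite, such that: (1) in the sense of `HasFrequency`,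
the inequality `l(n) ≤ n` has the frequency `δ` in multiple ergodic averages, and so has `l(n) ≤ F(n)` for every `F` with
`F(n) ≥ K log n` for all large `n` and some `K > 3 / log (4/3)`; (2) the same is true along almost every orbit, in the
sense of `AlongOrbits`. (3) If for infinitely many `N` there are a system and sets such that the sum over `n ≤ N` of the
measures of `A₀ ∩ T 1 ^ (-n) A 1 ∩ ... ∩ T k ^ (-n) A k` is at least `κ N`, and `o(N)` for the sum over the `n` for which
`l(n) ≤ n` is not true, then `l(n)` is finite for every positive integer `n`. (4) Let `A` be a set of positive measure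
for one invertible measure preserving transformation. If, for infinitely many `N`, up to `o(N)` exceptions `n ≤ N`, all
`n` for which `A ∩ T ^ (-n) A` has positive measure satisfy `l(n) ≤ n`, then `l(n)` is finite for every positive integer
`n`. (5) Let `R` be an ergodic transformation and `A` a set of positive measure. If it is not true that for almost every
`x`, for all large `N`, more than `ψ(N) N` of the `n ≤ N` with `R ^ n x ∈ A` violate `l(n) ≤ n`, where `ψ(N) → 0`, then
`l(n)` is finite for every positive integer `n`. -/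
theorem result : ∃ δ : ℝ, 0 < δ ∧ δ ≤ 1 ∧ (δ = 1 ↔ ∀ n : ℕ, 1 ≤ n → Finite n) ∧ HasDensity Finite δ ∧
    HasFrequency Good δ ∧ (∀ F : ℕ → ℝ, Above F → HasFrequency (AtMost F) δ) ∧
    AlongOrbits Good δ ∧ (∀ F : ℕ → ℝ, Above F → AlongOrbits (AtMost F) δ) ∧
    ∀ ψ : ℕ → ℝ, Tendsto ψ atTop (𝓝 0) →
      (∀ (k : ℕ) (κ : ℝ), 0 < κ →
        (∃ᶠ N : ℕ in atTop, ∃ (X : Type) (_ : MeasurableSpace X) (Y : System k X) (A₀ : Set X) (A : Fin k → Set X),
          MeasurableSet A₀ ∧ (∀ i, MeasurableSet (A i)) ∧ κ * N ≤ ∑ n ∈ Finset.Icc 1 N, Y.ret A₀ A n ∧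
          ∑ n ∈ Finset.Icc 1 N, (if Good n then (0 : ℝ) else 1) * Y.ret A₀ A n ≤ ψ N * N) →
        ∀ n : ℕ, 1 ≤ n → Finite n) ∧
      (∀ (X : Type) [MeasurableSpace X] (Y : System 1 X) (A : Set X), MeasurableSet A → 0 < Y.μ A →
        (∃ᶠ N : ℕ in atTop,
          ({n : ℕ | 1 ≤ n ∧ n ≤ N ∧ 0 < Y.ret A (fun _ => A) n ∧ ¬ Good n}.ncard : ℝ) ≤ ψ N * N) →
        ∀ n : ℕ, 1 ≤ n → Finite n) ∧
      ∀ (X : Type) [MeasurableSpace X] (μ : Measure X) [IsProbabilityMeasure μ] (R : X → X) (A : Set X),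
        Ergodic R μ → MeasurableSet A → 0 < μ A →
        (¬ ∀ᵐ x ∂μ, ∀ᶠ N : ℕ in atTop, ψ N * N < ({n : ℕ | 1 ≤ n ∧ n ≤ N ∧ R^[n] x ∈ A ∧ ¬ Good n}.ncard : ℝ)) →
        ∀ n : ℕ, 1 ≤ n → Finite n := by
  obtain ⟨δ, h0, h1, h2, h3, hlln⟩ := lln_C
  have hBC : ∀ n : ℕ, (∃ k : ℕ, Tn^[k] n = 1) ↔ Finite n := reach_C
  have hD : Dn Finite δ := h3
  have hinv : ∀ n, 1 ≤ n → (Finite n ↔ Finite (Tn n)) := fun n hn => by
    rw [← hBC, ← hBC]; exact reach_inv n hn
  have hF : ME Finite δ := me_inv hinv hD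
  have hlln' : ∀ η : ℝ, 0 < η → Tendsto (fun N : ℕ =>
      cnt (fun n => Finite n ∧ η * Real.log n < |(l n : ℝ) - 3 / Real.log (4 / 3) * Real.log n|) N / N) atTop (𝓝 0) := hlln
  have hdz : ∀ F : ℕ → ℝ, Above F → Tendsto (fun N : ℕ => cnt (fun n => ¬ (Finite n ↔ AtMost F n)) N / N) atTop (𝓝 0) :=
    fun F hF => dz_above hlln' hF
  have hdg : Tendsto (fun N : ℕ => cnt (fun n => ¬ (Finite n ↔ Good n)) N / N) atTop (𝓝 0) := by
    have h6 := hdz (fun n => n) ⟨3 / Real.log (4 / 3) + 1, by linarith, log_small _⟩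
    have e : AtMost (fun n => (n : ℝ)) = Good := by
      funext n; unfold AtMost Good; simp only [Nat.cast_le]
    rwa [e] at h6
  have horb : ∀ Q : ℕ → Prop, Tendsto (fun N : ℕ => cnt (fun n => ¬ (Finite n ↔ Q n)) N / N) atTop (𝓝 0) →
      AlongOrbits Q δ := by
    intro Q hQ X _ μ _ R f hR hf
    filter_upwards [pw hinv hD hR hf] with x hx
    refine (hx.1 Q hQ).congr fun N => ?_
    rw [div_eq_inv_mul]
  refine ⟨δ, h0, h1, h2, h3, freq_of (me_near hF hdg), fun F hF' => freq_of (me_near hF (hdz F hF')), horb _ hdg,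
    fun F hF' => horb _ (hdz F hF'), fun ψ hψ => ⟨fun k κ hκ h => h2.1 ?_,
    fun X _ Y A hA hpos h => h2.1 ?_, fun X _ μ _ R A hR hA hpos hbad => h2.1 ?_⟩⟩
  · exact me_suff (me_near hF hdg) h1 k hκ hψ (h.mono fun N hN => by
      obtain ⟨X, hX, Y, A₀, A, hA₀, hA, g1, g2⟩ := hN
      exact ⟨X, hX, conv Y, A₀, A, hA₀, hA, g1, g2⟩)
  · exact me_suff_one (me_near hF hdg) h1 (conv Y) hA hpos hψ h
  · refine pw_suff hinv hD h1 hdg hR hA hpos hψ fun hae => hbad ?_
    filter_upwards [hae] with x hx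
    rw [Filter.not_frequently] at hx
    filter_upwards [hx] with N hN
    refine lt_of_lt_of_le (not_le.1 hN) ?_
    have h7 : {n : ℕ | 1 ≤ n ∧ n ≤ N ∧ R^[n] x ∈ A ∧ ¬ Good n}.Finite :=
      (Set.finite_Icc 1 N).subset fun n hn => ⟨hn.1, hn.2.1⟩
    have h8 : {n : ℕ | 1 ≤ n ∧ n ≤ N ∧ ¬ Good n ∧ R^[n] x ∈ A} ⊆
        {n : ℕ | 1 ≤ n ∧ n ≤ N ∧ R^[n] x ∈ A ∧ ¬ Good n} :=
      fun n hn => ⟨hn.1, hn.2.1, hn.2.2.2, hn.2.2.1⟩
    exact_mod_cast Set.ncard_le_ncard h8 h7

end Pool.Agent.Results.MP_e43fce_nt.ErgodicAverages
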