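import Pool.Agent.Q250.CL.Coll
import Pool.Agent.Q250.CL.War

set_option autoImplicit false

/-!
# Waring's problem with one summand `x` with `l(x) ≤ x`

Let there be given families of integers of size at most `N`, at least `2 t` of which have a `t`-th additive
energy bounded by a constant times that of a random family; for example the values of given nonconstant
polynomials at the first few integers. For EVERY integer `n` of size `O(N)` consider the representations of `n` as
the sum of a positive integer `x` and of one member of each family. The number of those for which the inequality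
`l(x) ≤ x` of the question is true is `δ` times the number of all of them, up to `ε` times the number of all choices,
where `δ > 0` is the density of the integers with finite `l`; the same is true for the condition that `l(x)` is finite
and `l(x) / log x` is within `η` of `3 / log (4/3)`. Consequently every large integer is the sum of a positive integer
`x` with `l(x) ≤ (3 / log (4/3) + η) log x` and of `r` positive `k`-th powers, `r = r(k)`; and if for infinitely many `n`
almost all the representations of `n` by `x` and values of a polynomial have `l(x) ≤ x`, then `l` is always finite.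

Method: Fourier uniformity of the integers with finite `l`, the circle method on a cyclic group
(`Pool/Agent/Q49/WA`), bounds of moments of Weyl sums (starting file `Pool/Agent/Y834/CD/Poly.lean`), and the law of
large numbers for `l`.
-/

namespace Pool.Agent.Results.MP_e43fce_nt.WaringProblem

open Filter Topology

/-- the Collatz function -/
def C (n : ℕ) : ℕ := if n % 2 = 0 then n / 2 else 3 * n + 1

/-- `l(n)` is finite -/
def Finite (n : ℕ) : Prop := ∃ k, C^[k] n = 1

/-- the total stopping time `l(n)` (it is `0` if no iterate equals `1`) -/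
noncomputable def l (n : ℕ) : ℕ := sInf {k : ℕ | C^[k] n = 1}

/-- `l(n)` is finite and `l(n) ≤ n`: the inequality of the question is true for `n` -/
def Good (n : ℕ) : Prop := Finite n ∧ l n ≤ n

/-- `l(n)` is finite and differs from `3 / log (4/3) * log n` by at most `η log n` -/
def Typical (η : ℝ) (n : ℕ) : Prop := Finite n ∧ |(l n : ℝ) - 3 / Real.log (4 / 3) * Real.log n| ≤ η * Real.log n

/-- the positive integers with the property `P` have the natural density `δ` -/
def HasDensity (P : ℕ → Prop) (δ : ℝ) : Prop :=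
  Tendsto (fun N : ℕ => ({n : ℕ | 1 ≤ n ∧ n ≤ N ∧ P n}.ncard : ℝ) / N) atTop (𝓝 δ)

/-- The number of the pairs of `t`-tuples of members of the family `a` with the same sum. -/
noncomputable def energy (t : ℕ) {L : ℕ} (a : Fin L → ℤ) : ℕ :=
  {p : (Fin t → Fin L) × (Fin t → Fin L) | ∑ i, a (p.1 i) = ∑ i, a (p.2 i)}.ncard

/-- The energy of the family `a` is at most `K L ^ (2 t) / N`. -/
def Spread (t : ℕ) (K : ℝ) (N : ℕ) {L : ℕ} (a : Fin L → ℤ) : Prop :=
  (energy t a : ℝ) ≤ K * (L : ℝ) ^ (2 * t) / N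

/-- The number of the choices `v` of one member `a j (v j)` of each family such that the difference
`x` of `n` and the sum of these members is positive and has the property `Q`. -/
noncomputable def reps (Q : ℕ → Prop) (n : ℤ) {r : ℕ} {L : Fin r → ℕ} (a : ∀ j, Fin (L j) → ℤ) : ℕ :=
  {v : ∀ j, Fin (L j) | 0 < n - ∑ j, a j (v j) ∧ Q (n - ∑ j, a j (v j)).toNat}.ncard

/-- The values of `F` at `1, ..., L`. -/
noncomputable def vals (F : Polynomial ℤ) (L : ℕ) : Fin L → ℤ :=
  fun m => F.eval (((m : ℕ) + 1 : ℕ) : ℤ)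

/-- The number of the `r`-tuples of positive integers `m j` with `|F (m j)| ≤ n` for which the
difference `x` of `n` and the sum of the `F (m j)` is positive and has the property `Q`. -/
noncomputable def polyReps (Q : ℕ → Prop) (n : ℕ) (F : Polynomial ℤ) (r : ℕ) : ℕ :=
  {m : Fin r → ℕ | (∀ j, 1 ≤ m j ∧ |F.eval (m j : ℤ)| ≤ n) ∧ 0 < (n : ℤ) - ∑ j, F.eval (m j : ℤ) ∧
    Q ((n : ℤ) - ∑ j, F.eval (m j : ℤ)).toNat}.ncard

/-- The property `Q` has the frequency `c` among the summands `x`: for all `r`, `t ≥ 1`, `B`, `K`, `ε > 0`, if `N` is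
large, then for all `r` families of integers of absolute value at most `N`, at least `2 t` of which have energy at most
`K L ^ (2 t) / N`, and EVERY integer `n` with `|n| ≤ B N`, the number of the representations of `n` as the sum of a
positive integer `x` with the property `Q` and of one member of each family is `c` times the number of the
representations with an arbitrary positive integer `x`, up to `ε` times the number of all choices. -/
def Frequency (Q : ℕ → Prop) (c : ℝ) : Prop := ∀ (r t B : ℕ), 1 ≤ t → ∀ K ε : ℝ, 0 < ε → ∃ N₀ : ℕ, ∀ N : ℕ, N₀ ≤ N →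
  ∀ (L : Fin r → ℕ) (a : ∀ j, Fin (L j) → ℤ), (∀ j i, |a j i| ≤ N) →
  ∀ J : Finset (Fin r), 2 * t ≤ J.card → (∀ j ∈ J, Spread t K N (a j)) → ∀ n : ℤ, |n| ≤ B * N →
    |(reps Q n a : ℝ) - c * reps (fun _ => True) n a| ≤ ε * ∏ j, (L j : ℝ)

/-! ### proofs -/

open Pool.Agent.Q250.CL
open Pool.Agent.H499R2.ND (Dn cnt)

theorem freq_of {Q : ℕ → Prop} {c : ℝ} (h : FU Q c) : Frequency Q c := fun r t B ht K _ hε => war h r t B ht K hε

/-- WARING'S PROBLEM AND THE INEQUALITY `l(x) ≤ x`. There is `0 < δ ≤ 1`, the natural density of the positive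
integers with finite `l`, equal to `1` if and only if `l` is always finite, such that: (1) in the sense of `Frequency`
the inequality `l(x) ≤ x` has the frequency `δ` among the summands `x`, and so has the property that `l(x)` is finite
and within `η log x` of `3 / log (4/3) log x`, for every `η > 0`. (2) For every nonconstant integer polynomial `F`
there are `t ≥ 1`, `K` such that the families `F(1), ..., F(L)` satisfy the condition of `Frequency` with the constant
`K B` if `N ≤ B L ^ deg F`. (3) For every nonconstant integer polynomial `F`, every `r ≥ r₀(F)` and `η > 0`, for every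
large `n` at least `κ n ^ (r / deg F)` tuples of positive integers `m j` are such that `n` is the sum of the `F (m j)`
and of a positive integer `x` with `l(x) ≤ x`, and also for at least `κ n ^ (r / deg F)` tuples `x` is typical. (4) For
every `k ≥ 1` there is `r` such that for every `η > 0` every large integer is the sum of `r` positive `k`-th powers
and of a positive integer `x` with `l(x) ≤ x` and `|l(x) - 3 / log (4/3) log x| ≤ η log x`. (5) Let `F` be a nonconstant
integer polynomial and `r ≥ r₀(F)`. If for infinitely many `n` only `o(n ^ (r / deg F))` of the tuples of positive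
integers `m j` lead to an integer `x = n - ∑ F (m j) > 0` for which the inequality `l(x) ≤ x` fails, then `l(n)` is finite
for every positive integer `n`. -/
theorem result : ∃ δ : ℝ, 0 < δ ∧ δ ≤ 1 ∧ (δ = 1 ↔ ∀ n : ℕ, 1 ≤ n → Finite n) ∧ HasDensity Finite δ ∧
    Frequency Good δ ∧ (∀ η : ℝ, 0 < η → Frequency (Typical η) δ) ∧
    (∀ F : Polynomial ℤ, 1 ≤ F.natDegree → ∃ t : ℕ, 1 ≤ t ∧ ∃ K : ℝ, ∀ B L N : ℕ, 1 ≤ N →
      N ≤ B * L ^ F.natDegree → Spread t (K * B) N (vals F L)) ∧
    (∀ F : Polynomial ℤ, 1 ≤ F.natDegree → ∃ r₀ : ℕ, ∀ r : ℕ, r₀ ≤ r → ∀ η : ℝ, 0 < η → ∃ κ : ℝ, 0 < κ ∧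
      ∃ n₀ : ℕ, ∀ n : ℕ, n₀ ≤ n → κ * (n : ℝ) ^ ((r : ℝ) / F.natDegree) ≤ polyReps Good n F r ∧
        κ * (n : ℝ) ^ ((r : ℝ) / F.natDegree) ≤ polyReps (Typical η) n F r) ∧
    (∀ k : ℕ, 1 ≤ k → ∃ r : ℕ, 1 ≤ r ∧ ∀ η : ℝ, 0 < η → ∃ n₀ : ℕ, ∀ n : ℕ, n₀ ≤ n →
      ∃ x : ℕ, 1 ≤ x ∧ Good x ∧ Typical η x ∧ ∃ m : Fin r → ℕ, (∀ j, 1 ≤ m j) ∧ n = x + ∑ j, m j ^ k) ∧
    ∀ F : Polynomial ℤ, 1 ≤ F.natDegree → ∃ r₀ : ℕ, ∀ r : ℕ, r₀ ≤ r → ∀ ψ : ℕ → ℝ, Tendsto ψ atTop (𝓝 0) →
      (∃ᶠ n : ℕ in atTop, (polyReps (fun x => ¬ Good x) n F r : ℝ) ≤ ψ n * (n : ℝ) ^ ((r : ℝ) / F.natDegree)) →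
      ∀ n : ℕ, 1 ≤ n → Finite n := by
  obtain ⟨δ, h0, h1, h2, h3, hlln⟩ := lln_C
  have hBC : ∀ n : ℕ, (∃ k : ℕ, Pool.Agent.H499R2.ND.Tn^[k] n = 1) ↔ Finite n := reach_C
  have hD : Dn (fun n => ∃ k : ℕ, Pool.Agent.H499R2.ND.Tn^[k] n = 1) δ :=
    Pool.Agent.H499R2.LT.Dn_iff (fun n _ => (hBC n).symm) h3
  have e0 : (fun n => ∃ k : ℕ, Pool.Agent.H499R2.ND.Tn^[k] n = 1) = Finite := funext fun n => propext (hBC n)
  have hF : FU Finite δ := by
    have := fu_inv (P := fun n => ∃ k : ℕ, Pool.Agent.H499R2.ND.Tn^[k] n = 1) reach_inv hD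
    rwa [e0] at this
  have hlln' : ∀ η : ℝ, 0 < η → Tendsto (fun N : ℕ =>
      cnt (fun n => Finite n ∧ η * Real.log n < |(l n : ℝ) - 3 / Real.log (4 / 3) * Real.log n|) N / N) atTop (𝓝 0) := hlln
  have hG : FU Good δ := by
    have h6 : FU (fun n => Finite n ∧ (l n : ℝ) ≤ (n : ℝ)) δ :=
      fu_near hF (dz_above hlln' (F := fun n => n) ⟨3 / Real.log (4 / 3) + 1, by linarith, log_small _⟩)
    have e : (fun n => Finite n ∧ (l n : ℝ) ≤ (n : ℝ)) = Good := by
      funext n; unfold Good; simp only [Nat.cast_le]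
    rwa [e] at h6
  have hT : ∀ η : ℝ, 0 < η → FU (Typical η) δ := fun η hη => fu_near hF (dz_typ hlln' hη)
  have hone : δ = 1 → ∀ n : ℕ, 1 ≤ n → Finite n := h2.1
  refine ⟨δ, h0, h1, h2, h3, freq_of hG, fun η hη => freq_of (hT η hη), fun F hF' => ?_, fun F hF' => ?_,
    fun k hk => ?_, fun F hF' => ?_⟩
  · obtain ⟨t₀, C, -, H⟩ := Pool.Agent.Results.MP_d02c56_nt.WaringProblem.poly_spread F hF'
    exact ⟨t₀ + 1, by omega, C, fun B L N hN hNL => H (t₀ + 1) (by omega) B L N hN hNL⟩
  · obtain ⟨r₀, _, H⟩ := every hF'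
    refine ⟨r₀, fun r hr η hη => ?_⟩
    obtain ⟨κ₁, hκ₁, n₁, H1⟩ := H r hr Good δ hG h0
    obtain ⟨κ₂, hκ₂, n₂, H2⟩ := H r hr (Typical η) δ (hT η hη) h0
    refine ⟨min κ₁ κ₂, lt_min hκ₁ hκ₂, n₁ + n₂, fun n hn => ⟨?_, ?_⟩⟩
    · exact (mul_le_mul_of_nonneg_right (min_le_left _ _) (by positivity)).trans (H1 n (by omega))
    · exact (mul_le_mul_of_nonneg_right (min_le_right _ _) (by positivity)).trans (H2 n (by omega))
  · obtain ⟨r, hr, H⟩ := powers hk
    refine ⟨r, hr, fun η hη => ?_⟩
    have h6 : FU (fun n => Typical (min η 1) n ∧ (l n : ℝ) ≤ (n : ℝ)) δ := by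
      have hl2 : ∀ η' : ℝ, 0 < η' → Tendsto (fun N : ℕ =>
          cnt (fun n => Typical (min η 1) n ∧ η' * Real.log n < |(l n : ℝ) - 3 / Real.log (4 / 3) * Real.log n|) N / N)
          atTop (𝓝 0) := fun η' hη' => by
        refine squeeze_zero' (Eventually.of_forall fun N => div_nonneg
          (Pool.Agent.H499R2.ND.cntn_nonneg _ _) (Nat.cast_nonneg _)) (Eventually.of_forall fun N => ?_) (hlln' η' hη')
        refine div_le_div_of_nonneg_right ?_ (Nat.cast_nonneg _)
        exact Pool.Agent.H499R2.ND.cnt_mono N fun n _ _ h => ⟨h.1.1, h.2⟩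
      exact fu_near (hT (min η 1) (lt_min hη one_pos))
        (dz_above hl2 (F := fun n => n) ⟨3 / Real.log (4 / 3) + 1, by linarith, log_small _⟩)
    obtain ⟨n₀, H0⟩ := H _ δ h6 h0
    refine ⟨n₀, fun n hn => ?_⟩
    obtain ⟨x, hx, ⟨⟨g1, g2⟩, g3⟩, m, hm, hmn⟩ := H0 n hn
    refine ⟨x, hx, ⟨g1, by exact_mod_cast g3⟩, ⟨g1, g2.trans ?_⟩, m, hm, hmn⟩
    exact mul_le_mul_of_nonneg_right (min_le_left _ _) (Real.log_natCast_nonneg _)
  · obtain ⟨r₀, H⟩ := few_exc hF'
    exact ⟨r₀, fun r hr ψ hψ h => hone (H r hr Good δ hG h1 ψ hψ h)⟩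

end Pool.Agent.Results.MP_e43fce_nt.WaringProblem
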